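import Pool.Agent.helper36.UT.Spec

/-!
# Project UT, row IRR: irreducibility of `1 + 2 ^ r X ^ d`
-/

set_option autoImplicit false

open Filter Polynomial FirstOrder FirstOrder.Language

namespace Pool.Agent.UnivT

theorem IRR_val (r : ℕ) : padicValRat 2 (-((2 : ℚ) ^ r)⁻¹) = -(r : ℤ) := by
  have h1 : padicValRat 2 (2 : ℚ) = 1 := by
    have h := padicValRat.self (p := 2) (by norm_num)
    simpa using h
  rw [padicValRat.neg, padicValRat.inv, padicValRat.pow, h1, mul_one]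

/-- `IRR` -/
theorem IRR : IRR_stmt := by
  intro d n w r hd hdn h2 P Q hPQ
  by_contra hcon
  push Not at hcon
  obtain ⟨hP, hQ⟩ := hcon
  have hr2 : ((2 : ℚ) ^ r) ≠ 0 := by positivity
  have hdeg : (1 + C ((2 : ℚ) ^ r) * X ^ d : ℚ[X]).natDegree = d := by
    rw [natDegree_add_eq_right_of_natDegree_lt]
    · exact natDegree_C_mul_X_pow d _ hr2
    · rw [natDegree_one, natDegree_C_mul_X_pow d _ hr2]
      exact hd
  have hP0 : P ≠ 0 := by
    intro h
    apply hP
    rw [h, natDegree_zero]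
  have hQ0 : Q ≠ 0 := by
    intro h
    apply hQ
    rw [h, natDegree_zero]
  have hsum : P.natDegree + Q.natDegree = d := by
    rw [← natDegree_mul hP0 hQ0, hPQ, hdeg]
  obtain ⟨g, hg, hgP⟩ := WfDvdMonoid.exists_irreducible_factor (a := P)
    (fun h => hP (natDegree_eq_zero_of_isUnit h)) hP0
  have hgm : g.natDegree ≤ P.natDegree := natDegree_le_of_dvd hgP hP0
  have hgpos : 0 < g.natDegree := hg.natDegree_pos
  have hfact : Fact (Irreducible g) := ⟨hg⟩
  have hfin : Module.finrank ℚ (AdjoinRoot g) = g.natDegree := finrank_quotient_span_eq_natDegree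
  have hfd : FiniteDimensional ℚ (AdjoinRoot g) := Module.finite_of_finrank_pos (by omega)
  have hα : (1 : AdjoinRoot g) + algebraMap ℚ (AdjoinRoot g) (2 ^ r) * AdjoinRoot.root g ^ d = 0 := by
    have h1 : AdjoinRoot.mk g (1 + C ((2 : ℚ) ^ r) * X ^ d) = 0 :=
      AdjoinRoot.mk_eq_zero.mpr (hgP.trans ⟨Q, hPQ.symm⟩)
    rw [map_add, map_mul, map_one, AdjoinRoot.mk_C, map_pow (AdjoinRoot.mk g) X d,
      AdjoinRoot.mk_X] at h1
    exact h1
  set α : AdjoinRoot g := AdjoinRoot.root g with hαdef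
  -- the odd part of `d`
  obtain ⟨j, d', hd'odd, hdj⟩ := Nat.exists_eq_two_pow_mul_odd (n := d) (by omega)
  have hjn : j ≤ n := by
    have h3 : 2 ^ j ≤ d := Nat.le_of_dvd hd ⟨d', hdj⟩
    have h4 : j < 2 ^ j := Nat.lt_two_pow_self
    omega
  have hjr : 2 ^ j ∣ r := by
    have h3 : 2 ^ j ∣ 2 ^ n := pow_dvd_pow 2 hjn
    have h4 : 2 ^ j ∣ d * w := Dvd.dvd.mul_right ⟨d', hdj⟩ w
    rw [h2] at h3
    exact (Nat.dvd_add_right h4).mp h3
  obtain ⟨r', hr'⟩ := hjr
  have hcop : Nat.Coprime d' r := by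
    have hgd : Nat.gcd d' r ∣ 2 ^ n := by
      rw [h2]
      refine dvd_add (Dvd.dvd.mul_right ?_ w) (Nat.gcd_dvd_right _ _)
      rw [hdj]
      exact Dvd.dvd.mul_left (Nat.gcd_dvd_left _ _) _
    have hodd : Nat.Coprime (Nat.gcd d' r) 2 :=
      Nat.Coprime.coprime_dvd_left (Nat.gcd_dvd_left _ _) (Nat.coprime_two_right.mpr hd'odd)
    exact Nat.Coprime.eq_one_of_dvd (Nat.Coprime.pow_right n hodd) hgd
  -- the odd part of `d` divides the degree
  have hodd_dvd : d' ∣ g.natDegree := by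
    have hαd : α ^ d = algebraMap ℚ (AdjoinRoot g) (-((2 : ℚ) ^ r)⁻¹) := by
      have hne : algebraMap ℚ (AdjoinRoot g) (2 ^ r) ≠ 0 := by
        intro h
        exact hr2 ((map_eq_zero _).mp h)
      have h5 : algebraMap ℚ (AdjoinRoot g) (2 ^ r) * α ^ d =
          algebraMap ℚ (AdjoinRoot g) (2 ^ r) * algebraMap ℚ (AdjoinRoot g) (-((2 : ℚ) ^ r)⁻¹) := by
        rw [← map_mul, mul_neg, mul_inv_cancel₀ hr2, map_neg, map_one]
        exact eq_neg_of_add_eq_zero_right hα
      exact mul_left_cancel₀ hne h5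
    have h6 : (Algebra.norm ℚ α) ^ d = (-((2 : ℚ) ^ r)⁻¹) ^ g.natDegree := by
      rw [← map_pow, hαd, Algebra.norm_algebraMap, hfin]
    have h7 := congrArg (padicValRat 2) h6
    rw [padicValRat.pow, padicValRat.pow, IRR_val] at h7
    have h8 : (d : ℤ) ∣ (r : ℤ) * g.natDegree := by
      refine ⟨-padicValRat 2 (Algebra.norm ℚ α), ?_⟩
      rw [mul_neg, h7]
      ring
    have h9 : d ∣ r * g.natDegree := by exact_mod_cast h8
    have h10 : d' ∣ r * g.natDegree := dvd_trans ⟨2 ^ j, by rw [hdj]; ring⟩ h9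
    exact hcop.dvd_of_dvd_mul_left h10
  -- the power of two divides the degree
  have htwo_dvd : 2 ^ j ∣ g.natDegree := by
    set ζ : AdjoinRoot g := algebraMap ℚ (AdjoinRoot g) (2 ^ r') * α ^ d' with hζ
    have h5 : ζ ^ 2 ^ j = -1 := by
      rw [hζ, mul_pow, ← map_pow, ← pow_mul, ← pow_mul, mul_comm r', ← hr', mul_comm d', ← hdj]
      exact eq_neg_of_add_eq_zero_right hα
    have h6 : ζ ^ 2 ^ (j + 1) = 1 := by
      rw [pow_succ, pow_mul, h5]
      norm_num
    have h7 : ¬ ζ ^ 2 ^ j = 1 := by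
      rw [h5]
      intro h
      have h' : (-1 : AdjoinRoot g) ≠ 1 := by
        have hchar : CharZero (AdjoinRoot g) := algebraRat.charZero _
        norm_num
      exact h' h
    have h8 : IsPrimitiveRoot ζ (2 ^ (j + 1)) := by
      rw [← orderOf_eq_prime_pow h7 h6]
      exact IsPrimitiveRoot.orderOf ζ
    have hchar : CharZero (AdjoinRoot g) := algebraRat.charZero _
    have h9 := cyclotomic_eq_minpoly_rat h8 (by positivity)
    have h10 : (minpoly ℚ ζ).natDegree ∣ Module.finrank ℚ (AdjoinRoot g) :=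
      minpoly.degree_dvd (IsIntegral.of_finite ℚ ζ)
    rw [← h9, natDegree_cyclotomic, Nat.totient_prime_pow_succ Nat.prime_two, hfin] at h10
    simpa using h10
  have hcop2 : Nat.Coprime (2 ^ j) d' :=
    Nat.Coprime.pow_left j (Nat.coprime_two_left.mpr hd'odd)
  have hdvd : d ∣ g.natDegree := by
    rw [hdj]
    exact Nat.Coprime.mul_dvd_of_dvd_of_dvd hcop2 htwo_dvd hodd_dvd
  have := Nat.le_of_dvd hgpos hdvd
  omega

end Pool.Agent.UnivT
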